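import Pool.Agent.E8helper19.PM.Stm

/-!
# Project PM, piece PM1: extension into `D`
-/

set_option autoImplicit false
open MeasureTheory Filter Topology Set
open scoped ContDiff ENNReal Real InnerProductSpace NNReal

namespace Pool.Agent.E8helper54.PM.Ext

open Pool.Agent.E8helper19.PM

/-- energy density with the operator norm -/
noncomputable def en (f : E → ℂ) (y : E) : ℝ := ‖f y‖ ^ 2 + ‖fderiv ℝ f y‖ ^ 2

lemma en_nonneg (f : E → ℂ) (y : E) : 0 ≤ en f y := by unfold en; positivity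

lemma norm_gr_sq (f : E → ℂ) (y : E) : ‖gr f y‖ ^ 2 = ∑ j : Fin 3, ‖pd j f y‖ ^ 2 := by
  rw [EuclideanSpace.norm_sq_eq]; rfl

lemma gr_le (f : E → ℂ) (y : E) : ‖gr f y‖ ^ 2 ≤ 3 * ‖fderiv ℝ f y‖ ^ 2 := by
  rw [norm_gr_sq]
  have h : ∀ j : Fin 3, ‖pd j f y‖ ^ 2 ≤ ‖fderiv ℝ f y‖ ^ 2 := by
    intro j
    have := (fderiv ℝ f y).le_opNorm (EuclideanSpace.single j (1:ℝ))
    simp only [PiLp.norm_single, norm_one, mul_one] at this
    unfold pd
    gcongr
  calc ∑ j : Fin 3, ‖pd j f y‖ ^ 2 ≤ ∑ _j : Fin 3, ‖fderiv ℝ f y‖ ^ 2 :=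
        Finset.sum_le_sum fun j _ => h j
    _ = _ := by simp

lemma fd_le (f : E → ℂ) (y : E) : ‖fderiv ℝ f y‖ ^ 2 ≤ 3 * ‖gr f y‖ ^ 2 := by
  have h1 : ‖fderiv ℝ f y‖ ≤ ∑ j : Fin 3, ‖pd j f y‖ := by
    apply ContinuousLinearMap.opNorm_le_bound _ (Finset.sum_nonneg fun _ _ => norm_nonneg _)
    intro v
    have hv : v = ∑ j : Fin 3, v j • EuclideanSpace.single j (1:ℝ) := by
      ext i
      fin_cases i <;> simp [Fin.sum_univ_three]
    conv_lhs => rw [hv]
    rw [map_sum, Finset.sum_mul]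
    refine (norm_sum_le _ _).trans (Finset.sum_le_sum fun j _ => ?_)
    rw [map_smul, norm_smul, mul_comm]
    exact mul_le_mul_of_nonneg_left (PiLp.norm_apply_le v j) (norm_nonneg _)
  have h2 : (∑ j : Fin 3, ‖pd j f y‖) ^ 2 ≤ 3 * ∑ j : Fin 3, ‖pd j f y‖ ^ 2 := by
    simp only [Fin.sum_univ_three]
    nlinarith [sq_nonneg (‖pd 0 f y‖ - ‖pd 1 f y‖), sq_nonneg (‖pd 0 f y‖ - ‖pd 2 f y‖),
      sq_nonneg (‖pd 1 f y‖ - ‖pd 2 f y‖)]
  rw [norm_gr_sq]
  exact (pow_le_pow_left₀ (norm_nonneg _) h1 2).trans h2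

lemma en_congr {F G : E → ℂ} {y : E} (h : F =ᶠ[𝓝 y] G) : en F y = en G y := by
  unfold en
  rw [h.eq_of_nhds, h.fderiv_eq]

lemma en_zero {F : E → ℂ} {y : E} (h : y ∉ tsupport F) : en F y = 0 := by
  have h1 : F =ᶠ[𝓝 y] (fun _ => 0) := notMem_tsupport_iff_eventuallyEq.1 h
  rw [en_congr h1]
  simp [en]

lemma en_mul {a F : E → ℂ} {y : E} {B : ℝ} (ha : DifferentiableAt ℝ a y)
    (hF : DifferentiableAt ℝ F y) (h1 : ‖a y‖ ≤ B) (h2 : ‖fderiv ℝ a y‖ ≤ B) :
    en (fun y => a y * F y) y ≤ 3 * B ^ 2 * en F y := by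
  have h3 : fderiv ℝ (fun y => a y * F y) y = a y • fderiv ℝ F y + F y • fderiv ℝ a y :=
    fderiv_fun_mul ha hF
  have h4 : ‖fderiv ℝ (fun y => a y * F y) y‖ ≤ B * ‖fderiv ℝ F y‖ + ‖F y‖ * B := by
    rw [h3]
    refine (norm_add_le _ _).trans ?_
    rw [norm_smul, norm_smul]
    gcongr
  have hB : 0 ≤ B := (norm_nonneg _).trans h1
  have h5 : ‖a y * F y‖ ≤ B * ‖F y‖ := by
    rw [norm_mul]
    gcongr
  have h6 := pow_le_pow_left₀ (norm_nonneg _) h4 2
  have h7 := pow_le_pow_left₀ (norm_nonneg _) h5 2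
  unfold en
  nlinarith [sq_nonneg (B * ‖fderiv ℝ F y‖ - ‖F y‖ * B), sq_nonneg (B * ‖fderiv ℝ F y‖)]

lemma en_comp {f : E → ℂ} {R : E → E} {R' : E →L[ℝ] E} {y : E} {M : ℝ}
    (hR : HasFDerivAt R R' y) (hf : DifferentiableAt ℝ f (R y)) (hM : ‖R'‖ ≤ M) :
    en (fun y => f (R y)) y ≤ (1 + M ^ 2) * en f (R y) := by
  have h1 : fderiv ℝ (fun y => f (R y)) y = (fderiv ℝ f (R y)).comp R' :=
    (hf.hasFDerivAt.comp y hR).fderiv
  have h2 : ‖fderiv ℝ (fun y => f (R y)) y‖ ≤ ‖fderiv ℝ f (R y)‖ * M := by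
    rw [h1]
    exact (ContinuousLinearMap.opNorm_comp_le _ _).trans (by gcongr)
  have h3 := pow_le_pow_left₀ (norm_nonneg _) h2 2
  unfold en
  nlinarith [sq_nonneg (‖f (R y)‖ * M), sq_nonneg (‖f (R y)‖), sq_nonneg (‖fderiv ℝ f (R y)‖)]

lemma en_add (F G : E → ℂ) {y : E} (hF : DifferentiableAt ℝ F y) (hG : DifferentiableAt ℝ G y) :
    en (fun y => F y + G y) y ≤ 2 * en F y + 2 * en G y := by
  have h3 : fderiv ℝ (fun y => F y + G y) y = fderiv ℝ F y + fderiv ℝ G y :=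
    fderiv_fun_add hF hG
  unfold en
  rw [h3]
  have h4 := pow_le_pow_left₀ (norm_nonneg _) (norm_add_le (F y) (G y)) 2
  have h5 := pow_le_pow_left₀ (norm_nonneg _) (norm_add_le (fderiv ℝ F y) (fderiv ℝ G y)) 2
  nlinarith [sq_nonneg (‖F y‖ - ‖G y‖), sq_nonneg (‖fderiv ℝ F y‖ - ‖fderiv ℝ G y‖)]

lemma en_meas {F : E → ℂ} (hF : Continuous F) : Measurable (en F) := by
  unfold en
  exact ((hF.measurable.norm.pow_const 2).add ((measurable_fderiv ℝ F).norm.pow_const 2))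

lemma en_cont {f : E → ℂ} (hf : ContDiff ℝ ∞ f) : Continuous (en f) := by
  unfold en
  exact (hf.continuous.norm.pow 2).add ((hf.continuous_fderiv (by simp)).norm.pow 2)

lemma bdd_of_cpt {F : E → ℂ} (hF : Continuous F) (hc : HasCompactSupport F) :
    ∃ B, 0 ≤ B ∧ ∀ y, ‖F y‖ ≤ B := by
  obtain ⟨B, hB⟩ := hc.exists_bound_of_continuous hF
  exact ⟨B, (norm_nonneg _).trans (hB 0), hB⟩

lemma en_int {Ω : Set E} {F : E → ℂ} (hF : LTst Ω F) {D : Set E} (hD : Bornology.IsBounded D) :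
    IntegrableOn (en F) D := by
  obtain ⟨K, hK⟩ := hF.lip
  obtain ⟨B, hB0, hB⟩ := bdd_of_cpt hK.continuous hF.cpt
  have : IsFiniteMeasure (volume.restrict D) := ⟨by
    rw [Measure.restrict_apply_univ]; exact hD.measure_lt_top⟩
  refine Measure.integrableOn_of_bounded (M := B ^ 2 + (K:ℝ) ^ 2) hD.measure_lt_top.ne
    (en_meas hK.continuous).aestronglyMeasurable ?_
  refine Eventually.of_forall fun y => ?_
  rw [Real.norm_of_nonneg (en_nonneg _ _)]
  unfold en
  have h1 := hB y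
  have h2 : ‖fderiv ℝ F y‖ ≤ K := norm_fderiv_le_of_lipschitz ℝ hK
  gcongr

lemma en_int' {f : E → ℂ} (hf : ContDiff ℝ ∞ f) (hc : HasCompactSupport f) :
    Integrable (en f) := by
  refine (en_cont hf).integrable_of_hasCompactSupport ?_
  refine HasCompactSupport.intro hc fun y hy => en_zero hy

lemma lip_mul {a F : E → ℂ} {S : Set E} (ha : ∃ K, LipschitzWith K a)
    (hab : ∃ B, 0 ≤ B ∧ ∀ y, ‖a y‖ ≤ B) (hS : ∀ y, y ∉ S → a y = 0)
    (hF : ∃ K, LipschitzOnWith K F S) (hFb : ∃ B, 0 ≤ B ∧ ∀ y, ‖F y‖ ≤ B) :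
    ∃ K, LipschitzWith K (fun y => a y * F y) := by
  obtain ⟨K₁, h1⟩ := ha
  obtain ⟨B₁, hB1, h2⟩ := hab
  obtain ⟨K₂, h3⟩ := hF
  obtain ⟨B₂, hB2, h4⟩ := hFb
  refine ⟨⟨K₁ * B₂ + B₁ * K₂, by positivity⟩, LipschitzWith.of_dist_le_mul fun x y => ?_⟩
  have h5 : ‖a x - a y‖ ≤ K₁ * dist x y := by
    rw [← dist_eq_norm]; exact h1.dist_le_mul x y
  rw [dist_eq_norm]
  change _ ≤ (K₁ * B₂ + B₁ * K₂) * dist x y
  have hd : 0 ≤ dist x y := dist_nonneg
  by_cases hx : x ∈ S
  · by_cases hy : y ∈ S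
    · have h6 : ‖F x - F y‖ ≤ K₂ * dist x y := by
        rw [← dist_eq_norm]; exact h3.dist_le_mul x hx y hy
      have h7 : a x * F x - a y * F y = (a x - a y) * F x + a y * (F x - F y) := by ring
      rw [h7]
      refine (norm_add_le _ _).trans ?_
      rw [norm_mul, norm_mul]
      have h8 : ‖a x - a y‖ * ‖F x‖ ≤ (K₁ * dist x y) * B₂ := by
        gcongr
        exact h4 x
      have h9 : ‖a y‖ * ‖F x - F y‖ ≤ B₁ * (K₂ * dist x y) := by
        gcongr
        exact h2 y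
      linarith
    · have h7 : a x * F x - a y * F y = (a x - a y) * F x := by rw [hS y hy]; ring
      rw [h7, norm_mul]
      have h8 : ‖a x - a y‖ * ‖F x‖ ≤ (K₁ * dist x y) * B₂ := by
        gcongr
        exact h4 x
      have h9 : 0 ≤ B₁ * K₂ * dist x y := by positivity
      linarith
  · have h7 : a x * F x - a y * F y = (a x - a y) * F y := by rw [hS x hx]; ring
    rw [h7, norm_mul]
    have h8 : ‖a x - a y‖ * ‖F y‖ ≤ (K₁ * dist x y) * B₂ := by
      gcongr
      exact h4 y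
    have h9 : 0 ≤ B₁ * K₂ * dist x y := by positivity
    linarith

/-- the property used for the compactness argument -/
def P (Ω D T : Set E) : Prop :=
  ∃ χ : E → ℂ, ContDiff ℝ ∞ χ ∧ HasCompactSupport χ ∧ (∀ᶠ y in 𝓝ˢ T, χ y = 1) ∧
    ∃ C : ℝ, 0 ≤ C ∧ ∀ f, Tst Ω f → ∃ Φ, LTst Ω Φ ∧ ContDiffOn ℝ 1 Φ D ∧
      (∀ y, y ∉ D → Φ y = χ y * f y) ∧ ∫ y in D, en Φ y ≤ C * ∫ y in Ω \ closure D, en f y

lemma P_empty (Ω D : Set E) : P Ω D ∅ := by
  refine ⟨fun _ => 0, contDiff_const, HasCompactSupport.zero, by simp, 0, le_rfl, fun f _ =>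
    ⟨fun _ => 0, ⟨⟨0, LipschitzWith.const 0⟩, HasCompactSupport.zero, ?_⟩, contDiffOn_const, by simp,
      ?_⟩⟩
  · have : tsupport (fun _ : E => (0 : ℂ)) = ∅ := by
      rw [tsupport_eq_empty_iff]; rfl
    rw [this]; exact empty_subset _
  · simp [en]

lemma P_mono (Ω D : Set E) ⦃S T : Set E⦄ (hST : S ⊆ T) (h : P Ω D T) : P Ω D S := by
  obtain ⟨χ, h1, h2, h3, h4⟩ := h
  exact ⟨χ, h1, h2, h3.filter_mono (nhdsSet_mono hST), h4⟩

lemma P_union (Ω D : Set E) (hDo : IsOpen D) (hDb : Bornology.IsBounded D) ⦃S T : Set E⦄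
    (hS : P Ω D S) (hT : P Ω D T) : P Ω D (S ∪ T) := by
  obtain ⟨χ₁, a1, a2, a3, C₁, a4, a5⟩ := hS
  obtain ⟨χ₂, b1, b2, b3, C₂, b4, b5⟩ := hT
  -- bound for `1 - χ₁` and its derivative
  obtain ⟨B₁, hB₁, hb1⟩ := bdd_of_cpt a1.continuous a2
  obtain ⟨B₂, hb2⟩ := (a2.fderiv ℝ).exists_bound_of_continuous (a1.continuous_fderiv (by simp))
  set B : ℝ := max (1 + B₁) B₂ with hB
  have c1 : ∀ y, ‖(1 : ℂ) - χ₁ y‖ ≤ B := by
    intro y
    refine (norm_sub_le _ _).trans ?_
    rw [norm_one]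
    exact (add_le_add_right (hb1 y) 1).trans (le_max_left _ _)
  have c2 : ∀ y, ‖fderiv ℝ (fun y => (1 : ℂ) - χ₁ y) y‖ ≤ B := by
    intro y
    rw [fderiv_const_sub, norm_neg]
    exact (hb2 y).trans (le_max_right _ _)
  have hd1 : Differentiable ℝ χ₁ := a1.differentiable (by simp)
  refine ⟨fun y => χ₁ y + (1 - χ₁ y) * χ₂ y, by fun_prop, ?_, ?_, 2 * C₁ + 6 * B ^ 2 * C₂,
    by positivity, fun f hf => ?_⟩
  · exact a2.add (HasCompactSupport.mul_left (f := fun y => 1 - χ₁ y) b2)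
  · rw [nhdsSet_union]
    refine eventually_sup.2 ⟨?_, ?_⟩
    · filter_upwards [a3] with y hy
      rw [hy]; ring
    · filter_upwards [b3] with y hy
      rw [hy]; ring
  obtain ⟨Φ₁, d1, d2, d3, d4⟩ := a5 f hf
  obtain ⟨Φ₂, e1, e2, e3, e4⟩ := b5 f hf
  obtain ⟨K₁, hK₁⟩ := d1.lip
  obtain ⟨K₂, hK₂⟩ := e1.lip
  obtain ⟨Kχ, hKχ⟩ := ContDiff.lipschitzWith_of_hasCompactSupport a2 a1 (by simp)
  have hprod : ∃ K, LipschitzWith K (fun y => χ₁ y * Φ₂ y) :=
    lip_mul (S := univ) ⟨Kχ, hKχ⟩ ⟨B₁, hB₁, hb1⟩ (fun y hy => absurd (mem_univ y) hy)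
      ⟨K₂, lipschitzOnWith_univ.2 hK₂⟩ (bdd_of_cpt hK₂.continuous e1.cpt)
  obtain ⟨K₃, hK₃⟩ := hprod
  have hlt2 : LTst Ω (fun y => (1 - χ₁ y) * Φ₂ y) := by
    refine ⟨⟨K₂ + K₃, ?_⟩, HasCompactSupport.mul_left (f := fun y => 1 - χ₁ y) e1.cpt, ?_⟩
    · have : (fun y => (1 - χ₁ y) * Φ₂ y) = fun y => Φ₂ y - χ₁ y * Φ₂ y := by
        funext y; ring
      rw [this]
      exact hK₂.sub hK₃
    · exact (tsupport_mul_subset_right (f := fun y => 1 - χ₁ y) (g := Φ₂)).trans e1.supp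
  obtain ⟨K₄, hK₄⟩ := hlt2.lip
  have hlt : LTst Ω (fun y => Φ₁ y + (1 - χ₁ y) * Φ₂ y) := by
    refine ⟨⟨K₁ + K₄, hK₁.add hK₄⟩, d1.cpt.add hlt2.cpt, ?_⟩
    refine (tsupport_add Φ₁ (fun y => (1 - χ₁ y) * Φ₂ y)).trans ?_
    exact union_subset d1.supp hlt2.supp
  refine ⟨fun y => Φ₁ y + (1 - χ₁ y) * Φ₂ y, hlt, ?_, ?_, ?_⟩
  · exact d2.add ((contDiffOn_const.sub (a1.of_le (by simp)).contDiffOn).mul e2)
  · intro y hy
    beta_reduce
    rw [d3 y hy, e3 y hy]; ring
  · have hle : ∀ y ∈ D, en (fun y => Φ₁ y + (1 - χ₁ y) * Φ₂ y) y ≤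
        2 * en Φ₁ y + 6 * B ^ 2 * en Φ₂ y := by
      intro y hy
      have f1 : DifferentiableAt ℝ Φ₁ y :=
        (d2.differentiableOn (by simp)).differentiableAt (hDo.mem_nhds hy)
      have f2 : DifferentiableAt ℝ Φ₂ y :=
        (e2.differentiableOn (by simp)).differentiableAt (hDo.mem_nhds hy)
      have f3 : DifferentiableAt ℝ (fun y => 1 - χ₁ y) y := (hd1 y).const_sub 1
      have g1 := en_mul f3 f2 (c1 y) (c2 y)
      have g2 := en_add Φ₁ (fun y => (1 - χ₁ y) * Φ₂ y) f1 (f3.mul f2)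
      linarith
    have hi1 := en_int d1 hDb
    have hi2 := en_int e1 hDb
    have hi3 : IntegrableOn (fun y => 2 * en Φ₁ y + 6 * B ^ 2 * en Φ₂ y) D :=
      Integrable.fun_add (hi1.const_mul 2) (hi2.const_mul (6 * B ^ 2))
    calc ∫ y in D, en (fun y => Φ₁ y + (1 - χ₁ y) * Φ₂ y) y
        ≤ ∫ y in D, (2 * en Φ₁ y + 6 * B ^ 2 * en Φ₂ y) :=
          setIntegral_mono_on (en_int hlt hDb) hi3 hDo.measurableSet hle
      _ = 2 * (∫ y in D, en Φ₁ y) + 6 * B ^ 2 * ∫ y in D, en Φ₂ y := by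
          rw [integral_add (hi1.const_mul 2) (hi2.const_mul (6 * B ^ 2)), integral_const_mul,
            integral_const_mul]
      _ ≤ 2 * (C₁ * ∫ y in Ω \ closure D, en f y) +
            6 * B ^ 2 * (C₂ * ∫ y in Ω \ closure D, en f y) := by
          gcongr
      _ = _ := by ring

lemma P_loc (Ω D : Set E) (ρ : E → ℝ) (hΩ : IsOpen Ω) (hDb : Bornology.IsBounded D)
    (hρ : ContDiff ℝ ∞ ρ) (hD : D = {y | ρ y < 0}) (p : E) (hp : p ∈ Ω) (hρp : ρ p = 0)
    (hdρ : fderiv ℝ ρ p ≠ 0) : ∃ r > 0, P Ω D (Metric.ball p r) := by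
  have hρd : Differentiable ℝ ρ := hρ.differentiable (by simp)
  have hDo : IsOpen D := by rw [hD]; exact isOpen_lt hρ.continuous continuous_const
  have hcl : closure D ⊆ {y | ρ y ≤ 0} := by
    apply closure_minimal _ (isClosed_le hρ.continuous continuous_const)
    rw [hD]; exact fun y (hy : ρ y < 0) => (show ρ y ≤ 0 from le_of_lt hy)
  obtain ⟨w, hw⟩ : ∃ w, fderiv ℝ ρ p w ≠ 0 := by
    by_contra hcon
    push Not at hcon
    exact hdρ (ContinuousLinearMap.ext hcon)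
  obtain ⟨v, hv⟩ : ∃ v, fderiv ℝ ρ p v = 1 :=
    ⟨(fderiv ℝ ρ p w)⁻¹ • w, by rw [map_smul, smul_eq_mul, inv_mul_cancel₀ hw]⟩
  have hLc : Continuous fun y => fderiv ℝ ρ y v :=
    (hρ.continuous_fderiv (by simp)).clm_apply continuous_const
  obtain ⟨r', hr', hb⟩ : ∃ r' > 0, Metric.ball p r' ⊆ {y | |fderiv ℝ ρ y v - 1| < 1 / 4} ∩ Ω := by
    have ho : IsOpen ({y | |fderiv ℝ ρ y v - 1| < 1 / 4} ∩ Ω) :=
      (isOpen_lt (hLc.sub continuous_const).abs continuous_const).inter hΩ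
    exact Metric.isOpen_iff.1 ho p ⟨by simp [hv], hp⟩
  set R : E → E := fun y => y - (2 * ρ y) • v with hR
  have hRc : Continuous R := by
    exact continuous_id.sub ((continuous_const.mul hρ.continuous).smul continuous_const)
  have hRp : R p = p := by simp [hR, hρp]
  obtain ⟨r, hr, hrb⟩ : ∃ r > 0, Metric.ball p r ⊆ R ⁻¹' Metric.ball p r' ∩ Metric.ball p r' := by
    have ho : IsOpen (R ⁻¹' Metric.ball p r' ∩ Metric.ball p r') :=
      (Metric.isOpen_ball.preimage hRc).inter Metric.isOpen_ball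
    refine Metric.isOpen_iff.1 ho p ⟨?_, Metric.mem_ball_self hr'⟩
    rw [mem_preimage, hRp]; exact Metric.mem_ball_self hr'
  -- mean value theorem in the direction `v`
  have hmvt : ∀ y ∈ Metric.ball p r', ∀ z ∈ Metric.ball p r', ∀ t : ℝ, z - y = t • v →
      ∃ c, 3 / 4 < c ∧ ρ z - ρ y = t * c := by
    intro y hy z hz t ht
    obtain ⟨ξ, h1, h2⟩ := domain_mvt (f := ρ) (f' := fderiv ℝ ρ)
      (fun x _ => (hρd x).hasFDerivAt.hasFDerivWithinAt) (convex_ball p r') hy hz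
    refine ⟨fderiv ℝ ρ ξ v, ?_, ?_⟩
    · have h3 : |fderiv ℝ ρ ξ v - 1| < 1 / 4 :=
        (hb ((convex_ball p r').segment_subset hy hz h1)).1
      have h4 := (abs_lt.1 h3).1
      linarith
    · rw [h2, ht, map_smul, smul_eq_mul]
  have hA : ∀ y ∈ Metric.ball p r, ρ y < 0 → 0 < ρ (R y) := by
    intro y hy hy0
    obtain ⟨c, h1, h2⟩ := hmvt y (hrb hy).2 (R y) (hrb hy).1 (-(2 * ρ y)) (by
      simp [hR])
    nlinarith
  have hinj : InjOn R (Metric.ball p r) := by
    intro y hy z hz hyz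
    have h0 : z - y = (2 * ρ z - 2 * ρ y) • v := by
      have h3 : y - (2 * ρ y) • v = z - (2 * ρ z) • v := hyz
      rw [sub_smul]
      rw [sub_eq_sub_iff_add_eq_add] at h3 ⊢
      rw [← h3]; abel
    obtain ⟨c, h1, h2⟩ := hmvt y (hrb hy).2 z (hrb hz).2 _ h0
    have h4 : (ρ z - ρ y) * (1 - 2 * c) = 0 := by linarith
    have h5 : ρ z - ρ y = 0 := by
      rcases mul_eq_zero.1 h4 with h | h
      · exact h
      · linarith
    have h6 : z - y = 0 := by
      rw [h0]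
      have : 2 * ρ z - 2 * ρ y = 0 := by linarith
      rw [this, zero_smul]
    exact (sub_eq_zero.1 h6).symm
  set R' : E → E →L[ℝ] E := fun y =>
    ContinuousLinearMap.id ℝ E - (2 : ℝ) • (fderiv ℝ ρ y).smulRight v with hR'
  have hRd : ∀ y, HasFDerivAt R (R' y) y := by
    intro y
    have h1 : HasFDerivAt (fun y => (2 * ρ y) • v) ((2 : ℝ) • (fderiv ℝ ρ y).smulRight v) y := by
      have h2 := ((hρd y).hasFDerivAt.const_mul 2).smul_const v
      refine h2.congr_fderiv ?_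
      ext x
      simp [mul_smul]
    exact (hasFDerivAt_id y).sub h1
  have hR'c : Continuous R' := by
    have h1 : Continuous fun y => (fderiv ℝ ρ y).smulRight v :=
      ((ContinuousLinearMap.smulRightL ℝ E E).flip v).continuous.comp
        (hρ.continuous_fderiv (by simp))
    have h3 : Continuous fun A : E →L[ℝ] E => ContinuousLinearMap.id ℝ E - (2 : ℝ) • A := by
      fun_prop
    exact h3.comp h1
  have hdet : ∀ y, (R' y).det = 1 - 2 * fderiv ℝ ρ y v := by
    intro y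
    have h1 : ((R' y : E →L[ℝ] E) : E →ₗ[ℝ] E) =
        LinearMap.transvection (-(2 : ℝ) • ((fderiv ℝ ρ y : E →L[ℝ] ℝ) : E →ₗ[ℝ] ℝ)) v := by
      ext x
      simp [hR', LinearMap.transvection.apply, sub_eq_add_neg, mul_smul]
    rw [ContinuousLinearMap.det, h1, LinearMap.transvection.det]
    simp
    ring
  have hdet2 : ∀ y ∈ Metric.ball p r', 1 / 2 ≤ |(R' y).det| := by
    intro y hy
    rw [hdet]
    have h1 : |fderiv ℝ ρ y v - 1| < 1 / 4 := (hb hy).1
    have h2 := abs_lt.1 h1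
    rw [abs_of_neg (by linarith [h2.1])]
    linarith [h2.1]
  -- the cutoff
  set S : Set E := Metric.closedBall p (r / 2) with hS
  have hSr : S ⊆ Metric.ball p r := Metric.closedBall_subset_ball (by linarith)
  have hScpt : IsCompact S := isCompact_closedBall p (r / 2)
  obtain ⟨M, hM⟩ := hScpt.exists_bound_of_continuousOn hR'c.continuousOn
  let ψ : ContDiffBump p := ⟨r / 4, r / 2, by positivity, by linarith⟩
  set χ : E → ℂ := fun y => ((ψ y : ℝ) : ℂ) with hχ
  have hχs : ContDiff ℝ ∞ χ := Complex.ofRealCLM.contDiff.comp ψ.contDiff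
  have hχt : tsupport χ ⊆ S := by
    have h1 : tsupport χ ⊆ tsupport ψ := by
      apply closure_mono
      intro y hy
      rw [Function.mem_support] at hy ⊢
      intro h0
      exact hy (by simp [hχ, h0])
    exact h1.trans ψ.tsupport_eq.subset
  have hχc : HasCompactSupport χ := hScpt.of_isClosed_subset (isClosed_tsupport _) hχt
  have hχ0 : ∀ y, y ∉ S → χ y = 0 := fun y hy => image_eq_zero_of_notMem_tsupport fun h => hy (hχt h)
  obtain ⟨B₁, hB₁, hb1⟩ := bdd_of_cpt hχs.continuous hχc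
  obtain ⟨B₂, hb2⟩ := (hχc.fderiv ℝ).exists_bound_of_continuous (hχs.continuous_fderiv (by simp))
  set B : ℝ := max B₁ B₂ with hB
  have c1 : ∀ y, ‖χ y‖ ≤ B := fun y => (hb1 y).trans (le_max_left _ _)
  have c2 : ∀ y, ‖fderiv ℝ χ y‖ ≤ B := fun y => (hb2 y).trans (le_max_right _ _)
  have hχd : Differentiable ℝ χ := hχs.differentiable (by simp)
  obtain ⟨Kχ, hKχ⟩ := ContDiff.lipschitzWith_of_hasCompactSupport hχc hχs (by simp)
  refine ⟨r / 4, by positivity, χ, hχs, hχc, ?_, 2 * (3 * B ^ 2 * (1 + M ^ 2)), by positivity,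
    fun f hf => ?_⟩
  · rw [Metric.isOpen_ball.nhdsSet_eq, eventually_principal]
    intro y hy
    have h1 : ψ y = 1 := ψ.one_of_mem_closedBall (Metric.ball_subset_closedBall hy)
    simp [hχ, h1]
  have hfd : Differentiable ℝ f := hf.smooth.differentiable (by simp)
  -- the folded map
  set Q : E → E := fun y => y - (2 * min (ρ y) 0) • v with hQ
  set Φ : E → ℂ := fun y => χ y * f (Q y) with hΦ
  have hQL : ∃ K, LipschitzOnWith K Q S := by
    obtain ⟨K, hK⟩ := ContDiffOn.exists_lipschitzOnWith (hρ.contDiffOn (s := S)) (by simp)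
      (convex_closedBall p (r / 2)) hScpt
    refine ⟨⟨1 + 2 * K * ‖v‖, by positivity⟩, LipschitzOnWith.of_dist_le_mul fun x hx y hy => ?_⟩
    change _ ≤ (1 + 2 * K * ‖v‖) * dist x y
    have h1 : Q x - Q y = (x - y) - (2 * (min (ρ x) 0 - min (ρ y) 0)) • v := by
      simp only [hQ]
      rw [mul_sub, sub_smul]; abel
    have h2 : |min (ρ x) 0 - min (ρ y) 0| ≤ K * dist x y := by
      have h3 := abs_min_sub_min_le_max (ρ x) 0 (ρ y) 0
      rw [sub_self, abs_zero, max_eq_left (abs_nonneg _)] at h3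
      refine h3.trans ?_
      have := hK.dist_le_mul x hx y hy
      rwa [Real.dist_eq] at this
    rw [dist_eq_norm, h1]
    refine (norm_sub_le _ _).trans ?_
    rw [norm_smul, Real.norm_eq_abs, abs_mul, abs_two, ← dist_eq_norm]
    have h4 : 2 * |min (ρ x) 0 - min (ρ y) 0| * ‖v‖ ≤ 2 * (K * dist x y) * ‖v‖ := by
      gcongr
    linarith
  have hfL : ∃ K, LipschitzWith K f :=
    ContDiff.lipschitzWith_of_hasCompactSupport hf.cpt hf.smooth (by simp)
  have hfB := bdd_of_cpt hf.smooth.continuous hf.cpt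
  have hΦL : LTst Ω Φ := by
    refine ⟨?_, ?_, ?_⟩
    · refine lip_mul (S := S) ⟨Kχ, hKχ⟩ ⟨B₁, hB₁, hb1⟩ hχ0 ?_ ?_
      · obtain ⟨K₁, h1⟩ := hQL
        obtain ⟨K₂, h2⟩ := hfL
        exact ⟨K₂ * K₁, h2.comp_lipschitzOnWith h1⟩
      · obtain ⟨B₃, h1, h2⟩ := hfB
        exact ⟨B₃, h1, fun y => h2 _⟩
    · exact HasCompactSupport.mul_right (f' := fun y => f (Q y)) hχc
    · refine (tsupport_mul_subset_left (f := χ) (g := fun y => f (Q y))).trans ?_
      exact hχt.trans (hSr.trans fun y hy => (hb (hrb hy).2).2)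
  have hloc : ∀ y ∈ D, Φ =ᶠ[𝓝 y] fun y => χ y * f (R y) := by
    intro y hy
    filter_upwards [hDo.mem_nhds hy] with z hz
    have hz0 : ρ z < 0 := by rw [hD] at hz; exact hz
    simp only [hΦ, hQ, hR, min_eq_left hz0.le]
  have hRs : ContDiff ℝ ∞ R := by
    exact contDiff_id.sub ((contDiff_const.mul hρ).smul contDiff_const)
  refine ⟨Φ, hΦL, ?_, ?_, ?_⟩
  · refine ContDiffOn.congr (f := fun y => χ y * f (R y)) ?_ (fun y hy => (hloc y hy).eq_of_nhds)
    exact ((hχs.mul (hf.smooth.comp hRs)).of_le (by simp)).contDiffOn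
  · intro y hy
    have hy0 : 0 ≤ ρ y := by
      by_contra h
      exact hy (by rw [hD]; exact not_le.1 h)
    simp [hΦ, hQ, min_eq_right hy0]
  · have hSm : MeasurableSet (D ∩ S) := hDo.measurableSet.inter hScpt.measurableSet
    have h1 : ∫ y in D, en Φ y = ∫ y in D ∩ S, en Φ y := by
      refine setIntegral_eq_of_subset_of_forall_sdiff_eq_zero hDo.measurableSet inter_subset_left ?_
      intro y hy
      apply en_zero
      intro h2
      have h3 : y ∈ tsupport χ := (tsupport_mul_subset_left (f := χ) (g := fun y => f (Q y))) h2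
      exact hy.2 ⟨hy.1, hχt h3⟩
    have hpt : ∀ y ∈ D ∩ S, en Φ y ≤
        2 * (3 * B ^ 2 * (1 + M ^ 2)) * (|(R' y).det| • en f (R y)) := by
      intro y hy
      rw [en_congr (hloc y hy.1)]
      have h2 := en_mul (a := χ) (F := fun y => f (R y)) (hχd y)
        ((hfd _).comp y (hRd y).differentiableAt) (c1 y) (c2 y)
      have h3 := en_comp (f := f) (hRd y) (hfd _) (hM y hy.2)
      have h4 := hdet2 y (hrb (hSr hy.2)).2
      refine h2.trans ?_
      have h5 : 3 * B ^ 2 * en (fun y => f (R y)) y ≤ 3 * B ^ 2 * ((1 + M ^ 2) * en f (R y)) := by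
        gcongr
      refine h5.trans ?_
      rw [smul_eq_mul]
      have h6 : 0 ≤ 3 * B ^ 2 * (1 + M ^ 2) * en f (R y) :=
        mul_nonneg (by positivity) (en_nonneg _ _)
      nlinarith
    have hfi := en_int' hf.smooth hf.cpt
    have hgc : Continuous fun y => |(R' y).det| • en f (R y) := by
      have h2 : Continuous fun y => (R' y).det := ContinuousLinearMap.continuous_det.comp hR'c
      exact h2.abs.smul ((en_cont hf.smooth).comp hRc)
    have hgi : IntegrableOn (fun y => |(R' y).det| • en f (R y)) (D ∩ S) :=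
      (hgc.continuousOn.integrableOn_compact hScpt).mono_set inter_subset_right
    have hinj' : InjOn R (D ∩ S) := hinj.mono (inter_subset_right.trans hSr)
    have h7 := integral_image_eq_integral_abs_det_fderiv_smul volume hSm
      (fun y _ => (hRd y).hasFDerivWithinAt) hinj' (en f)
    have hsub : R '' (D ∩ S) ⊆ Ω \ closure D := by
      rintro _ ⟨y, hy, rfl⟩
      refine ⟨(hb (hrb (hSr hy.2)).1).2, fun h => ?_⟩
      have h8 := hA y (hSr hy.2) (by have := hy.1; rw [hD] at this; exact this)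
      exact absurd (hcl h) (not_le.2 h8)
    have h9 : ∫ y in R '' (D ∩ S), en f y ≤ ∫ y in Ω \ closure D, en f y :=
      setIntegral_mono_set hfi.integrableOn (Eventually.of_forall fun y => en_nonneg _ _)
        hsub.eventuallyLE
    calc ∫ y in D, en Φ y = ∫ y in D ∩ S, en Φ y := h1
      _ ≤ ∫ y in D ∩ S, 2 * (3 * B ^ 2 * (1 + M ^ 2)) * (|(R' y).det| • en f (R y)) :=
          setIntegral_mono_on ((en_int hΦL hDb).mono_set inter_subset_left) (hgi.const_mul _)
            hSm hpt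
      _ = 2 * (3 * B ^ 2 * (1 + M ^ 2)) * ∫ y in R '' (D ∩ S), en f y := by
          rw [integral_const_mul, h7]
      _ ≤ _ := by gcongr

theorem t_EXT : S_EXT := by
  intro Ω D hΩ hΩb hsm hcl
  obtain ⟨ρ, hρ, hD, hdρ⟩ := hsm
  have hDo : IsOpen D := by rw [hD]; exact isOpen_lt hρ.continuous continuous_const
  have hDb : Bornology.IsBounded D := hΩb.subset (subset_closure.trans hcl)
  have hcc : IsCompact (closure D) :=
    Metric.isCompact_of_isClosed_isBounded isClosed_closure (hΩb.subset hcl)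
  have hfr : IsCompact (frontier D) := hcc.of_isClosed_subset isClosed_frontier frontier_subset_closure
  have hle : closure D ⊆ {y | ρ y ≤ 0} := by
    apply closure_minimal _ (isClosed_le hρ.continuous continuous_const)
    rw [hD]; exact fun y (hy : ρ y < 0) => (show ρ y ≤ 0 from le_of_lt hy)
  have hP : P Ω D (frontier D) := by
    refine hfr.induction_on (P_empty Ω D) (P_mono Ω D) (P_union Ω D hDo hDb) ?_
    intro p hp
    have hpc : p ∈ closure D := frontier_subset_closure hp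
    have hp0 : ρ p = 0 := by
      refine le_antisymm (hle hpc) ?_
      by_contra h
      have h1 : p ∈ D := by rw [hD]; exact not_le.1 h
      rw [hDo.frontier_eq] at hp
      exact hp.2 h1
    obtain ⟨r, hr, hPr⟩ := P_loc Ω D ρ hΩ hDb hρ hD p (hcl hpc) hp0 (hdρ p hp0)
    exact ⟨Metric.ball p r, mem_nhdsWithin_of_mem_nhds (Metric.ball_mem_nhds p hr), hPr⟩
  obtain ⟨χ, h1, h2, h3, C, h4, h5⟩ := hP
  refine ⟨3 * C * 3, fun f hf => ?_⟩
  obtain ⟨Φ₀, d1, d2, d3, d4⟩ := h5 f hf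
  -- the outer part
  set g : E → ℂ := fun y => Dᶜ.indicator (fun y => (1 - χ y) * f y) y with hg
  have hgs : ContDiff ℝ ∞ g := by
    rw [contDiff_iff_contDiffAt]
    intro y
    by_cases hy : y ∈ D
    · have h6 : g =ᶠ[𝓝 y] fun _ => 0 := by
        filter_upwards [hDo.mem_nhds hy] with z hz
        simp [hg, hz]
      exact contDiffAt_const.congr_of_eventuallyEq h6
    · have hsm1 : ContDiffAt ℝ ∞ (fun y => (1 - χ y) * f y) y :=
        ((contDiff_const.sub h1).mul hf.smooth).contDiffAt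
      by_cases hy2 : y ∈ closure D
      · have hyf : y ∈ frontier D := by rw [hDo.frontier_eq]; exact ⟨hy2, hy⟩
        have h6 : g =ᶠ[𝓝 y] fun _ => 0 := by
          have h7 : ∀ᶠ z in 𝓝 y, χ z = 1 := h3.filter_mono (nhds_le_nhdsSet hyf)
          filter_upwards [h7] with z hz
          simp [hg, hz, indicator]
        exact contDiffAt_const.congr_of_eventuallyEq h6
      · have h6 : g =ᶠ[𝓝 y] fun y => (1 - χ y) * f y := by
          filter_upwards [isClosed_closure.isOpen_compl.mem_nhds hy2] with z hz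
          have hz2 : z ∉ D := fun h => hz (subset_closure h)
          simp [hg, hz2]
        exact hsm1.congr_of_eventuallyEq h6
  have hgsup : tsupport g ⊆ tsupport f := by
    apply closure_mono
    intro y hy
    rw [Function.mem_support] at hy ⊢
    intro h0
    apply hy
    simp [hg, indicator, h0]
  have hgc : HasCompactSupport g := hf.cpt.of_isClosed_subset (isClosed_tsupport _) hgsup
  obtain ⟨K₁, hK₁⟩ := d1.lip
  obtain ⟨K₂, hK₂⟩ := ContDiff.lipschitzWith_of_hasCompactSupport hgc hgs (by simp)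
  have hLT : LTst Ω (fun y => Φ₀ y + g y) := by
    refine ⟨⟨K₁ + K₂, hK₁.add hK₂⟩, d1.cpt.add hgc, ?_⟩
    refine (tsupport_add Φ₀ g).trans ?_
    exact union_subset d1.supp (hgsup.trans hf.supp)
  refine ⟨fun y => Φ₀ y + g y, hLT, ?_, ?_⟩
  · intro y hy
    beta_reduce
    rw [d3 y hy]
    simp only [hg, indicator, mem_compl_iff, hy, not_false_eq_true, if_true]
    ring
  · have h6 : ∀ y ∈ D, en (fun y => Φ₀ y + g y) y = en Φ₀ y := by
      intro y hy
      apply en_congr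
      filter_upwards [hDo.mem_nhds hy] with z hz
      simp [hg, hz]
    have h7 : H1 D (fun y => Φ₀ y + g y) ≤ 3 * ∫ y in D, en Φ₀ y := by
      unfold H1
      rw [← integral_const_mul]
      refine integral_mono_of_nonneg (Eventually.of_forall fun y => by positivity)
        ((en_int d1 hDb).const_mul 3) ?_
      refine ae_restrict_of_forall_mem hDo.measurableSet fun y hy => ?_
      beta_reduce
      rw [← h6 y hy]
      have h8 := gr_le (fun y => Φ₀ y + g y) y
      unfold en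
      nlinarith [sq_nonneg ‖Φ₀ y + g y‖]
    have h9 : ∫ y in Ω \ closure D, en f y ≤ 3 * H1 (Ω \ closure D) f := by
      unfold H1
      rw [← integral_const_mul]
      refine integral_mono_of_nonneg (Eventually.of_forall fun y => en_nonneg _ _) ?_ ?_
      · have hgrc : Continuous (gr f) := by
          have h10 : Continuous fun y => (fun j => pd j f y : Fin 3 → ℂ) := by
            refine continuous_pi fun j => ?_
            exact (hf.smooth.continuous_fderiv (by simp)).clm_apply continuous_const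
          exact (PiLp.continuous_toLp 2 _).comp h10
        have h11 : Continuous fun y => 3 * (‖f y‖ ^ 2 + ‖gr f y‖ ^ 2) :=
          continuous_const.mul ((hf.smooth.continuous.norm.pow 2).add (hgrc.norm.pow 2))
        refine (h11.integrable_of_hasCompactSupport ?_).integrableOn
        refine HasCompactSupport.intro hf.cpt fun y hy => ?_
        have h12 : en f y = 0 := en_zero hy
        have h13 := gr_le f y
        have h14 : ‖f y‖ ^ 2 = 0 := by
          unfold en at h12; nlinarith [sq_nonneg ‖f y‖, sq_nonneg ‖fderiv ℝ f y‖]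
        have h15 : ‖gr f y‖ ^ 2 = 0 := by
          unfold en at h12
          nlinarith [sq_nonneg ‖f y‖, sq_nonneg ‖fderiv ℝ f y‖, sq_nonneg ‖gr f y‖]
        rw [h14, h15]; ring
      · refine Eventually.of_forall fun y => ?_
        have h8 := fd_le f y
        unfold en
        beta_reduce
        nlinarith [sq_nonneg ‖f y‖]
    calc H1 D (fun y => Φ₀ y + g y) ≤ 3 * ∫ y in D, en Φ₀ y := h7
      _ ≤ 3 * (C * (3 * H1 (Ω \ closure D) f)) := by
          gcongr
          exact d4.trans (by gcongr)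
      _ = _ := by ring

end Pool.Agent.E8helper54.PM.Ext
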